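import Mathlib

set_option autoImplicit false

namespace Pool.Agent.Results.MP_9cfc50_lc.Bound

structure Rule (A : Type) where
  head : A
  pos : Finset A
  neg : Finset A

variable {A : Type}

def ReductModel (P : Set (Rule A)) (I J : A → Fin 3) : Prop :=
  ∀ r ∈ P, ∀ x : Fin 3, (∀ b ∈ r.pos, x ≤ J b) → (∀ c ∈ r.neg, x ≤ (I c).rev) → x ≤ J r.head

def StablePartial (P : Set (Rule A)) (I : A → Fin 3) : Prop := IsLeast {J | ReductModel P I J} I

def InfoLe (I J : A → Fin 3) : Prop := ∀ a, I a ≠ 1 → J a = I a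

def Regular (P : Set (Rule A)) (I : A → Fin 3) : Prop :=
  StablePartial P I ∧ ∀ J, StablePartial P J → InfoLe I J → J = I

def Arc (P : Set (Rule A)) (u v : A) (negative : Bool) : Prop :=
  ∃ r ∈ P, r.head = v ∧ u ∈ (if negative then r.neg else r.pos)

def IsCycle (P : Set (Rule A)) (m : ℕ) (c : ℕ → A) (s : ℕ → Bool) : Prop :=
  0 < m ∧ c m = c 0 ∧ (∀ i < m, ∀ j < m, c i = c j → i = j) ∧ ∀ i < m, Arc P (c i) (c (i + 1)) (s i)

def EvenCycle (m : ℕ) (s : ℕ → Bool) : Prop :=
  Even ((Finset.range m).filter fun i => s i = true).card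

theorem parity (t : ℕ → Bool) (m : ℕ) :
    Even ((Finset.range m).filter fun i => (t i != t (i + 1)) = true).card ↔ t 0 = t m := by
  induction m with
  | zero => simp
  | succ m ih =>
    rw [Finset.range_add_one, Finset.filter_insert]
    split_ifs with h
    · rw [Finset.card_insert_of_notMem (by simp), Nat.even_add_one, ih]
      revert h
      cases t 0 <;> cases t m <;> cases t (m + 1) <;> simp
    · rw [ih]
      revert h
      cases t 0 <;> cases t m <;> cases t (m + 1) <;> simp

inductive Der (P : Set (Rule A)) (X : Set A) : A → Prop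
  | mk (r : Rule A) : r ∈ P → (∀ a ∈ r.pos, Der P X a) → (∀ c ∈ r.neg, c ∉ X) → Der P X r.head

def Ga (P : Set (Rule A)) (X : Set A) : Set A := {a | Der P X a}

theorem Ga_anti (P : Set (Rule A)) : Antitone (Ga P) := by
  intro X Y h a ha
  induction ha with
  | mk r hr _ h2 ih => exact .mk r hr ih fun c hc k => h2 c hc (h k)

open Classical in
noncomputable def mkI (T Q : Set A) (a : A) : Fin 3 := if a ∈ T then 2 else if a ∈ Q then 1 else 0

theorem stable_of {P : Set (Rule A)} {T : Set A} (h1 : Ga P (Ga P T) = T) (h2 : T ⊆ Ga P T) :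
    StablePartial P (mkI T (Ga P T)) := by
  have e2 : ∀ a, 2 ≤ mkI T (Ga P T) a ↔ a ∈ T := fun a => by
    simp only [mkI]; split_ifs <;> simp [*]
  have e1 : ∀ a, 1 ≤ mkI T (Ga P T) a ↔ a ∈ Ga P T := fun a => by
    simp only [mkI]; split_ifs with c d
    · simp [h2 c]
    · simp [d]
    · simp [d]
  have r2 : ∀ x : Fin 3, 2 ≤ x.rev ↔ ¬ 1 ≤ x := by decide
  have r1 : ∀ x : Fin 3, 1 ≤ x.rev ↔ ¬ 2 ≤ x := by decide
  refine ⟨fun r hr x a b => ?_, fun J hJ a => ?_⟩
  · fin_cases x
    · simp
    · exact (e1 _).2 (.mk r hr (fun u hu => (e1 _).1 (a u hu))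
        fun c hc k => (r1 _).1 (b c hc) ((e2 _).2 k))
    · refine (e2 _).2 (h1.le (.mk r hr (fun u hu => h1.ge ((e2 _).1 (a u hu)))
        fun c hc k => (r2 _).1 (b c hc) ((e1 _).2 k)))
  · have k2 : ∀ a, Der P (Ga P T) a → 2 ≤ J a := fun a ha => by
      induction ha with
      | mk r hr _ h ih => exact hJ r hr 2 ih fun c hc => (r2 _).2 fun k => h c hc ((e1 _).1 k)
    have k1 : ∀ a, Der P T a → 1 ≤ J a := fun a ha => by
      induction ha with
      | mk r hr _ h ih => exact hJ r hr 1 ih fun c hc => (r1 _).2 fun k => h c hc ((e2 _).1 k)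
    simp only [mkI]
    split_ifs with c d
    · exact k2 a (h1.ge c)
    · exact k1 a d
    · simp

theorem of_stable {P : Set (Rule A)} {I : A → Fin 3} (h : StablePartial P I) :
    Ga P {a | I a ≠ 0} = {a | I a = 2} ∧ Ga P {a | I a = 2} = {a | I a ≠ 0} := by
  classical
  have k2 : ∀ a, Der P {a | I a ≠ 0} a → I a = 2 := fun a ha => by
    induction ha with
    | mk r hr _ h2 ih =>
      refine top_le_iff.1 (h.1 r hr 2 (fun b hb => (ih b hb).ge) fun c hc => ?_)
      have : I c = 0 := by simpa using h2 c hc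
      simp [this]
  have k1 : ∀ a, Der P {a | I a = 2} a → 1 ≤ I a := fun a ha => by
    induction ha with
    | mk r hr _ h2 ih =>
      refine h.1 r hr 1 ih fun c hc => ?_
      have : I c ≠ 2 := h2 c hc
      revert this
      generalize I c = x
      decide +revert
  have sub : Ga P {a | I a ≠ 0} ⊆ Ga P {a | I a = 2} := Ga_anti P fun a (ha : I a = 2) => by
    simp [ha]
  have m : I ≤ mkI (Ga P {a | I a ≠ 0}) (Ga P {a | I a = 2}) := h.2 (fun r hr x a b => by
    fin_cases x
    · simp
    · have : r.head ∈ Ga P {a | I a = 2} := .mk r hr (fun u hu => by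
        have := a u hu
        simp only [mkI] at this
        split_ifs at this with c d
        exacts [sub c, d, by simp at this]) fun c hc (k : I c = 2) => by
          have := b c hc
          simp [k] at this
      simp only [mkI]
      split_ifs <;> simp
    · have : r.head ∈ Ga P {a | I a ≠ 0} := .mk r hr (fun u hu => by
        have := a u hu
        simp only [mkI] at this
        split_ifs at this with c d
        exacts [c, by simp at this, by simp at this]) fun c hc (k : I c ≠ 0) => by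
          have := b c hc
          revert this k
          generalize I c = x
          decide +revert
      simp [mkI, this])
  refine ⟨Set.Subset.antisymm k2 fun a (ha : I a = 2) => ?_,
    Set.Subset.antisymm (fun a ha => ?_) fun a (ha : I a ≠ 0) => ?_⟩
  · have := m a
    simp only [mkI, ha] at this
    split_ifs at this with c d
    exacts [c, by simp at this, by simp at this]
  · exact (lt_of_lt_of_le zero_lt_one (k1 a ha)).ne'
  · have := m a
    simp only [mkI] at this
    split_ifs at this with c d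
    exacts [sub c, d, absurd (by simpa using this) ha]

theorem join [Finite A] {P : Set (Rule A)} {I J : A → Fin 3} (hI : StablePartial P I)
    (hJ : StablePartial P J) (h1 : ∀ a, I a = 2 → J a ≠ 0) (h2 : ∀ a, J a = 2 → I a ≠ 0) :
    ∃ K, StablePartial P K ∧ InfoLe I K ∧ InfoLe J K := by
  obtain ⟨i1, i2⟩ := of_stable hI
  obtain ⟨j1, j2⟩ := of_stable hJ
  let T0 : Set A := {a | I a = 2} ∪ {a | J a = 2}
  have s1 : T0 ⊆ {a | I a ≠ 0} := by
    rintro a (ha | ha)
    exacts [by simp [show I a = 2 from ha], h2 a ha]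
  have s2 : T0 ⊆ {a | J a ≠ 0} := by
    rintro a (ha | ha)
    exacts [h1 a ha, by simp [show J a = 2 from ha]]
  have g1 : Ga P T0 ⊆ {a | I a ≠ 0} := i2 ▸ Ga_anti P Set.subset_union_left
  have g2 : Ga P T0 ⊆ {a | J a ≠ 0} := j2 ▸ Ga_anti P Set.subset_union_right
  obtain ⟨T, ⟨t0, t1, t2⟩, hm⟩ := (Set.toFinite
    {T : Set A | T0 ⊆ T ∧ T ⊆ Ga P T ∧ T ⊆ Ga P (Ga P T)}).exists_maximal
    ⟨T0, le_rfl, Set.union_subset (i1 ▸ Ga_anti P s1) (j1 ▸ Ga_anti P s2),
      Set.union_subset (i1 ▸ Ga_anti P g1) (j1 ▸ Ga_anti P g2)⟩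
  have e : Ga P (Ga P T) = T := Set.Subset.antisymm
    (hm ⟨t0.trans t2, Ga_anti P (Ga_anti P t1), Ga_anti P (Ga_anti P t2)⟩ t2) t2
  have k : ∀ L : A → Fin 3, {a | L a = 2} ⊆ T0 → Ga P T0 ⊆ {a | L a ≠ 0} →
      InfoLe L (mkI T (Ga P T)) := fun L a b x hx => by
    by_cases c : L x = 2
    · simp [mkI, t0 (a c), c]
    · have z : L x = 0 := by
        revert hx c
        generalize L x = y
        decide +revert
      have : x ∉ Ga P T := fun k => b (Ga_anti P t0 k) z
      simp [mkI, this, mt (@t1 x) this, z]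
  exact ⟨_, stable_of e t1, k I Set.subset_union_left g1, k J Set.subset_union_right g2⟩

theorem back {P : Set (Rule A)} {I J : A → Fin 3} (hI : StablePartial P I)
    (hJ : StablePartial P J) {a : A} (h1 : I a = 2) (h2 : J a = 0) :
    ∃ b, (I b = 2 ∧ J b = 0 ∧ Arc P b a false) ∨ (J b = 2 ∧ I b = 0 ∧ Arc P b a true) := by
  obtain ⟨i1, -⟩ := of_stable hI
  obtain ⟨-, j2⟩ := of_stable hJ
  have d : Der P {a | I a ≠ 0} a := i1.ge h1
  cases d with
  | mk r hr p q =>
    by_contra c
    simp only [not_exists, not_or, not_and] at c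
    exact j2.le (.mk r hr (fun b hb => j2.ge fun k => (c b).1 (i1.le (p b hb)) k ⟨r, hr, rfl, hb⟩)
      fun b hb k => (c b).2 k (by simpa using q b hb) ⟨r, hr, rfl, hb⟩) h2

theorem result (A : Type) [Finite A] (P : Set (Rule A)) (U : Finset A)
    (H : ∀ (m : ℕ) (c : ℕ → A) (s : ℕ → Bool), IsCycle P m c s → EvenCycle m s →
      ∃ i < m, c i ∈ U) :
    {I : A → Fin 3 | Regular P I}.ncard ≤ 2 ^ U.card := by
  classical
  have key : ∀ I J, Regular P I → Regular P J → (∀ u ∈ U, I u = 2 ↔ J u = 2) → I = J := by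
    intro I J hI hJ hU
    let D : A → Prop := fun a => (I a = 2 ∧ J a = 0) ∨ (J a = 2 ∧ I a = 0)
    by_cases e : ∃ a, D a
    swap
    · obtain ⟨K, k, k1, k2⟩ := join hI.1 hJ.1 (fun a h k => e ⟨a, .inl ⟨h, k⟩⟩)
        fun a h k => e ⟨a, .inr ⟨h, k⟩⟩
      exact (hI.2 K k k1).symm.trans (hJ.2 K k k2)
    exfalso
    have st : ∀ a : {a // D a}, ∃ b : {a // D a},
        Arc P b.1 a.1 (decide (I b = 2) != decide (I a = 2)) := by
      rintro ⟨a, h | h⟩
      · obtain ⟨b, k | k⟩ := back hI.1 hJ.1 h.1 h.2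
        · exact ⟨⟨b, .inl ⟨k.1, k.2.1⟩⟩, by simpa [h.1, k.1] using k.2.2⟩
        · exact ⟨⟨b, .inr ⟨k.1, k.2.1⟩⟩, by simpa [h.1, k.2.1] using k.2.2⟩
      · obtain ⟨b, k | k⟩ := back hJ.1 hI.1 h.1 h.2
        · exact ⟨⟨b, .inr ⟨k.1, k.2.1⟩⟩, by simpa [h.2, k.2.1] using k.2.2⟩
        · exact ⟨⟨b, .inl ⟨k.1, k.2.1⟩⟩, by simpa [h.2, k.1] using k.2.2⟩
    choose f hf using st
    obtain ⟨a, ha⟩ := e
    obtain ⟨x, hx⟩ : ∃ x, x ∈ Function.periodicPts f := by
      obtain ⟨i, j, hij, h⟩ := Finite.exists_ne_map_eq_of_infinite fun n : ℕ => f^[n] ⟨a, ha⟩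
      wlog w : i < j generalizing i j
      · exact this j i hij.symm h.symm (by omega)
      refine ⟨f^[i] ⟨a, ha⟩, j - i, by omega, ?_⟩
      rw [Function.IsPeriodicPt, Function.IsFixedPt, ← Function.iterate_add_apply,
        Nat.sub_add_cancel w.le, h]
    have pos := Function.minimalPeriod_pos_of_mem_periodicPts hx
    set m := Function.minimalPeriod f x
    have per : f^[m] x = x := Function.iterate_minimalPeriod
    have sh : ∀ i < m, f^[m - i] x = f (f^[m - (i + 1)] x) := fun i hi => by
      rw [← Function.iterate_succ_apply' f]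
      congr 1
      omega
    obtain ⟨i, -, hi⟩ := H m (fun i => (f^[m - i] x).1)
      (fun i => decide (I (f^[m - i] x) = 2) != decide (I (f^[m - (i + 1)] x) = 2))
      ⟨pos, by simp [per], fun i hi j hj h => by
        have md : ∀ i < m, f^[m - i] x = f^[(m - i) % m] x := fun i _ =>
          (Function.iterate_mod_minimalPeriod_eq (f := f) (x := x)).symm
        have := Function.iterate_injOn_Iio_minimalPeriod (f := f) (x := x)
          (Nat.mod_lt (m - i) pos) (Nat.mod_lt (m - j) pos)
          ((md i hi).symm.trans ((Subtype.ext h).trans (md j hj)))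
        have e : ∀ i < m, (m - i) % m = if i = 0 then 0 else m - i := fun i hi => by
          split_ifs with c
          · simp [c]
          · exact Nat.mod_eq_of_lt (by omega)
        rw [e i hi, e j hj] at this
        split_ifs at this <;>
        omega, fun i hi => by
        dsimp only
        rw [sh i hi]
        exact hf _⟩
      ((parity (fun i => decide (I (f^[m - i] x) = 2)) m).2 (by simp [per]))
    have := hU _ hi
    rcases (f^[m - i] x).2 with h | h
    · simp [h.1, h.2] at this
    · simp [h.1, h.2] at this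
  rw [← Finset.card_powerset, ← Set.ncard_coe_finset]
  refine Set.ncard_le_ncard_of_injOn (fun I => U.filter fun u => I u = 2)
    (fun I _ => Finset.mem_coe.2 (Finset.mem_powerset.2 (Finset.filter_subset _ _))) (fun I hI J hJ h => key I J hI hJ fun u hu => ?_)
  simpa [hu] using Finset.ext_iff.1 h u

end Pool.Agent.Results.MP_9cfc50_lc.Bound
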